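import Mathlib
import Pool.Agent.X211.Conds

/-!
In ZFC there is a partially ordered set such that every cofinal subset has a maximal chain of
singular cardinality.
-/

set_option autoImplicit false
open Cardinal Order Set Ordinal

namespace Pool.Agent.Results.MP_43ca77_lc.SingularChains

open Pool.Agent.X211

section Defs

variable {P : Type} [PartialOrder P]

/-- `C` is a maximal chain of `Q`: a subset of `Q` linearly ordered by `≤` and not properly
contained in any other such subset of `Q`. -/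
def IsMaximalChain (Q C : Set P) : Prop :=
  C ⊆ Q ∧ IsChain (· ≤ ·) C ∧ ∀ D : Set P, D ⊆ Q → IsChain (· ≤ ·) D → C ⊆ D → D = C

/-- Property (R): every maximal chain of `Q` has regular cardinality (finite cardinalities are
counted as regular). -/
def PropertyR (Q : Set P) : Prop :=
  ∀ C : Set P, IsMaximalChain Q C → (Cardinal.mk C < ℵ₀ ∨ (Cardinal.mk C).IsRegular)

end Defs

/-- In ZFC there is a partially ordered set none of whose cofinal subsets has property (R). -/
theorem result : ∃ (P : Type) (_ : PartialOrder P), ∀ Q : Set P, (∀ p : P, ∃ q ∈ Q, p ≤ q) →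
    ¬ PropertyR Q := by
  classical
  let μ : Cardinal.{0} := ℵ_ ω
  have hμ : ℵ₀ ≤ μ := aleph0_le_aleph ω
  have hreg : (succ μ).IsRegular := isRegular_succ hμ
  let W : Type := (succ μ).ord.ToType
  have hW : #W = succ μ := mk_ord_toType _
  have hcofW : cof W = succ μ := by
    rw [Ordinal.cof_toType, hreg.cof_ord]
  have hcof : μ < cof W := by rw [hcofW]; exact lt_succ μ
  have hseg : ∀ x : W, #(Iio x) ≤ μ := fun x => by
    have : #(Iio x) < succ μ := Cardinal.mk_Iio_toType_ord_lt x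
    exact lt_succ_iff.1 this
  have hno : NoMaxOrder W := Cardinal.noMaxOrder (hμ.trans (le_succ μ))
  have hne : Nonempty W := by
    rw [← Cardinal.mk_ne_zero_iff, hW]
    exact hreg.ne_zero
  obtain ⟨ι, S, hι, hdisj, hlim, hstat⟩ := ulam_succ (W := W) hμ hW hcof hseg
  have hesc : ∀ i, ∀ g : W, ∃ δ, g < δ ∧ δ ∉ S i := by
    intro i g
    have hne' : (Ioi g).Nonempty := exists_gt g
    refine ⟨wellFounded_lt.min (Ioi g) hne', wellFounded_lt.min_mem (Ioi g) hne', ?_⟩
    intro hmem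
    obtain ⟨z, hz1, hz2⟩ := Pool.Agent.H341Q.limOmega_exists_between (hlim i hmem)
      (wellFounded_lt.min_mem (Ioi g) hne')
    exact wellFounded_lt.not_lt_min (Ioi g) hz1 hz2
  -- the good index
  have hgood : ∃ i, ∀ Q : Set (Cond (S i)), (∀ p, ∃ q ∈ Q, p ≤ q) → ∀ (p : Cond (S i)) (n : ℕ),
      ∃ C ⊆ Q, IsChain (· ≤ ·) C ∧ ℵ_ (n : Ordinal.{0}) ≤ #C ∧ (∀ c ∈ C, p ≤ c) ∧
        ∃ q ∈ Q, ∀ c ∈ C, c ≤ q := by
    by_contra hcon
    push Not at hcon
    choose Q hQ p n hn using hcon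
    obtain ⟨m, hm⟩ := infinite_pigeonhole_card (α := ℕ) n (succ μ) hι.ge (hμ.trans (le_succ μ)) (by
      rw [Cardinal.mk_nat, hreg.cof_ord]
      exact hμ.trans_lt (lt_succ μ))
    have hmμ : ℵ_ (succ (m : Ordinal.{0})) < succ μ := by
      refine lt_trans ?_ (lt_succ μ)
      rw [aleph_lt_aleph]
      exact Ordinal.isSuccLimit_omega0.succ_lt (Ordinal.natCast_lt_omega0 m)
    obtain ⟨I, hI⟩ := (le_mk_iff_exists_set).1 (hmμ.le.trans hm)
    have hmI : ℵ_ (m : Ordinal.{0}) < #I := by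
      rw [hI, aleph_lt_aleph]
      exact lt_succ _
    obtain ⟨i, c, hc1, hc2, hc3, q, hq, hcq⟩ := exists_long (I := I) (T := fun i => S i.1.1)
      (fun i g => hesc _ g) (fun i j hij => hdisj _ _ (fun e => hij (Subtype.ext (Subtype.ext e))))
      (aleph0_le_aleph _) hmI (by rw [hI, hcofW]; exact hmμ) (fun i => Q i.1.1)
      (fun i => hQ i.1.1) (fun i => p i.1.1)
    have hni : n i.1.1 = m := i.1.2
    refine hn i.1.1 (range c) ?_ ?_ ?_ ?_ q hq |>.elim ?_
    · rintro _ ⟨j, rfl⟩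
      exact hc2 j
    · rintro _ ⟨j, rfl⟩ _ ⟨j', rfl⟩ _
      rcases le_total j j' with h | h
      · exact Or.inl (hc1.monotone h)
      · exact Or.inr (hc1.monotone h)
    · rw [hni, Cardinal.mk_range_eq _ hc1.injective, Cardinal.mk_ord_toType]
    · rintro _ ⟨j, rfl⟩
      exact hc3 j
    · rintro _ ⟨⟨j, rfl⟩, hj⟩
      exact hj (hcq j)
  obtain ⟨i, hi⟩ := hgood
  refine ⟨Cond (S i), inferInstance, fun Q hQ hR => ?_⟩
  have hi' := hi Q hQ
  choose Cf hCQ hCch hCcard hCge nx hnxQ hnx using hi'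
  let p₀ : Cond (S i) := ⟨∅, ⟨Classical.arbitrary W, by simp⟩, by simp, by
    intro d hd hne
    exact absurd hd (by
      intro h
      obtain ⟨x, hx⟩ := hne
      exact h hx)⟩
  let q : ℕ → Cond (S i) := fun n => Nat.rec p₀ (fun n q => nx q n) n
  have hqs : ∀ n, q (n + 1) = nx (q n) n := fun n => rfl
  let C : ℕ → Set (Cond (S i)) := fun n => Cf (q n) n
  have hle1 : ∀ n, ∀ c ∈ C n, q n ≤ c := fun n c hc => hCge _ _ c hc
  have hle2 : ∀ n, ∀ c ∈ C n, c ≤ q (n + 1) := fun n c hc => hnx _ _ c hc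
  have hCne : ∀ n, (C n).Nonempty := by
    intro n
    by_contra h
    rw [Set.not_nonempty_iff_eq_empty] at h
    have h1 := hCcard (q n) n
    change ℵ_ (n : Ordinal.{0}) ≤ #(C n) at h1
    rw [h] at h1
    simp only [Cardinal.mk_eq_zero] at h1
    exact absurd h1 (not_le.mpr (aleph0_pos.trans_le (aleph0_le_aleph _)))
  have hqmono : Monotone q := by
    apply monotone_nat_of_le_succ
    intro n
    obtain ⟨c, hc⟩ := hCne n
    exact (hle1 n c hc).trans (hle2 n c hc)
  let U : Set (Cond (S i)) := ⋃ n, C n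
  have hUch : IsChain (· ≤ ·) U := by
    intro a ha b hb hab
    simp only [U, mem_iUnion] at ha hb
    obtain ⟨m, hm⟩ := ha
    obtain ⟨n, hn⟩ := hb
    rcases lt_trichotomy m n with h | h | h
    · exact Or.inl ((hle2 m a hm).trans ((hqmono h).trans (hle1 n b hn)))
    · subst h
      exact hCch _ _ hm hn hab
    · exact Or.inr ((hle2 n b hn).trans ((hqmono h).trans (hle1 m a hm)))
  have hUQ : U ⊆ Q := by
    intro a ha
    simp only [U, mem_iUnion] at ha
    obtain ⟨m, hm⟩ := ha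
    exact hCQ _ _ hm
  obtain ⟨M, hUM, hM⟩ := zorn_subset_nonempty {C : Set (Cond (S i)) | C ⊆ Q ∧ IsChain (· ≤ ·) C}
    (by
      intro 𝒞 h𝒞 hch hne
      refine ⟨⋃₀ 𝒞, ⟨Set.sUnion_subset fun s hs => (h𝒞 hs).1, ?_⟩,
        fun s hs => Set.subset_sUnion_of_mem hs⟩
      rintro a ⟨s, hs, ha⟩ b ⟨t, ht, hb⟩ hab
      rcases hch.total hs ht with hst | hst
      · exact (h𝒞 ht).2 (hst ha) hb hab
      · exact (h𝒞 hs).2 ha (hst hb) hab) U ⟨hUQ, hUch⟩
  have hMmax : IsMaximalChain Q M := by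
    refine ⟨hM.1.1, hM.1.2, fun D hDQ hD hMD => ?_⟩
    exact Subset.antisymm (hM.2 ⟨hDQ, hD⟩ hMD) hMD
  have hMle : #M ≤ μ := chain_card (hstat i) hμ hseg M hM.1.2
  have hMge : μ ≤ #M := by
    change ℵ_ ω ≤ #M
    rw [aleph_limit Ordinal.isSuccLimit_omega0]
    apply ciSup_le'
    rintro ⟨a, ha⟩
    obtain ⟨n, rfl⟩ := Ordinal.lt_omega0.1 ha
    refine (hCcard (q n) n).trans (Cardinal.mk_le_mk_of_subset ?_)
    exact (Set.subset_iUnion C n).trans hUM
  have hMeq : #M = ℵ_ ω := le_antisymm hMle hMge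
  rcases hR M hMmax with h | h
  · rw [hMeq] at h
    exact absurd h (not_lt.mpr hμ)
  · rw [hMeq] at h
    exact Cardinal.isSingular_aleph_omega0.not_isRegular h

end Pool.Agent.Results.MP_43ca77_lc.SingularChains
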